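import Pool.Agent.P8H69.IE.Stm2

/-!
# Project IE: the package CRT
-/

set_option autoImplicit false

namespace Pool.Agent.P8H38.IE

open Pool.Agent.X80.SG Pool.Agent.P8H69.IE

variable {n k : ℕ}

/-- a free element between two elements of `V ∪ W` -/
lemma nbr {V W : Finset (ZMod n)} (hint : Interlacing V W) {x : ZMod n} (hx : x ∉ V ∪ W)
    (h1 : x + 1 ∈ V ∪ W) (h2 : x - 1 ∈ V ∪ W) :
    (x - 1 ∈ V ∧ x + 1 ∈ W) ∨ (x - 1 ∈ W ∧ x + 1 ∈ V) := by
  have h3 := hint (x - 1) h2 2 (by norm_num) (by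
    rw [show x - 1 + ((2 : ℕ) : ZMod n) = x + 1 by push_cast; ring]
    exact h1) (by
    intro s hs1 hs2
    have hs : s = 1 := by omega
    rw [hs, Nat.cast_one, sub_add_cancel]
    exact hx)
  rw [show x - 1 + ((2 : ℕ) : ZMod n) = x + 1 by push_cast; ring] at h3
  rw [Finset.mem_union] at h1 h2
  tauto

lemma cast_ne (j : ℕ) (h0 : 0 < j) (hj : j < n) : (j : ZMod n) ≠ 0 := by
  intro h
  rw [ZMod.natCast_eq_zero_iff] at h
  exact absurd (Nat.le_of_dvd h0 h) (by omega)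

/-- there are free elements only if `d` is positive -/
lemma d_pos {d : ℕ} (hn : 5 ≤ n) (hnd : n = 2 * k + d) (V W : Vert n k) (hd : Disjoint V.1 W.1)
    {x : ZMod n} (hx : x ∉ V.1 ∪ W.1) : 0 < d := by
  have : NeZero n := ⟨by omega⟩
  rcases Nat.eq_zero_or_pos d with h | h
  · exfalso
    have h1 : (V.1 ∪ W.1) = Finset.univ := by
      apply Finset.eq_univ_of_card
      rw [Finset.card_union_of_disjoint hd, V.2.1, W.2.1, ZMod.card]
      omega
    rw [h1] at hx
    exact hx (Finset.mem_univ _)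
  · exact h

/-- three consecutive free elements -/
lemma three {d : ℕ} (hn : 5 ≤ n) (hnd : n = 2 * k + d) (V W : Vert n k) (hd : Disjoint V.1 W.1)
    (hint : Interlacing V.1 W.1) (hb : ¬ Bad d (V.1 ∪ W.1)) (x0 : ZMod n)
    (h0 : x0 ∉ V.1 ∪ W.1) (h1 : x0 + 1 ∉ V.1 ∪ W.1) (h2 : x0 + 2 ∉ V.1 ∪ W.1) :
    ((SG n k).deleteEdges {s(V, W)}).Colorable (n - 2 * k + 1) := by
  have : NeZero n := ⟨by omega⟩
  have hn3 : 3 ≤ n := by omega
  have hd0 := d_pos hn hnd V W hd h0
  have h12 : x0 + 1 + 1 = x0 + 2 := by ring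
  have c1 : (1 : ZMod n) ≠ 0 := by
    have := cast_ne (n := n) 1 (by omega) (by omega)
    rwa [Nat.cast_one] at this
  have c2 : (2 : ZMod n) ≠ 0 := by
    have := cast_ne (n := n) 2 (by omega) (by omega)
    rwa [Nat.cast_ofNat] at this
  have c3 : (3 : ZMod n) ≠ 0 := by
    have := cast_ne (n := n) 3 (by omega) (by omega)
    rwa [Nat.cast_ofNat] at this
  have key : ∀ j, j ∉ V.1 ∪ W.1 → j + 1 ∉ V.1 ∪ W.1 → j = x0 ∨ j = x0 + 1 := by
    intro j hj hj1
    by_contra hcon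
    push Not at hcon
    obtain ⟨ha, hb'⟩ := hcon
    by_cases hj0 : j + 1 = x0
    · apply hb
      refine ⟨x0 + 1, h1, by rw [h12]; exact h2, Or.inl ⟨j, hj, hj1, hb', ?_, ?_⟩⟩
      · intro h
        apply c3
        linear_combination hj0 - h
      · intro h
        apply c1
        linear_combination hj0 - h
    · exact hb ⟨x0, h0, h1, Or.inl ⟨j, hj, hj1, ha, hb', hj0⟩⟩
  have hlong : ∀ s : ℕ, s < 2 * d → x0 + 2 + 1 + (s : ZMod n) ∈ V.1 ∪ W.1 := by
    intro s hs
    by_contra hcon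
    apply hb
    refine ⟨x0 + 1, h1, by rw [h12]; exact h2, Or.inr ⟨s, 0, hs, by omega, ?_, ?_⟩⟩
    · rw [show x0 + 1 + 2 + (s : ZMod n) = x0 + 2 + 1 + (s : ZMod n) by ring]
      exact hcon
    · rw [show x0 + 1 - 1 - ((0 : ℕ) : ZMod n) = x0 by push_cast; ring]
      exact h0
  have hn' : ∀ x, x ∉ V.1 ∪ W.1 → x ∉ V.1 ∧ x ∉ W.1 := by
    intro x hx
    rwa [Finset.mem_union, not_or] at hx
  refine colorable_run hn3 hnd V W (x0 + 2) 3
    ⟨V.2.2, W.2.2, hd, V.2.1, W.2.1, by norm_num, ?_, ?_, ?_⟩ hlong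
  · have h3 := hlong 0 (by omega)
    rwa [Nat.cast_zero, add_zero] at h3
  · intro x hx
    have hlt : ord (x0 + 2) x < n := ZMod.val_lt _
    rcases (show ord (x0 + 2) x = n - 3 ∨ ord (x0 + 2) x = n - 2 ∨ ord (x0 + 2) x = n - 1 by
      omega) with h | h | h
    · have h3 := eq_of_ord h
      rw [cast_sub_self (by omega)] at h3
      have h4 : x = x0 := by rw [h3]; push_cast; ring
      rw [h4]
      exact hn' _ h0
    · have h3 := eq_of_ord h
      rw [cast_sub_self (by omega)] at h3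
      have h4 : x = x0 + 1 := by rw [h3]; push_cast; ring
      rw [h4]
      exact hn' _ h1
    · have h3 := eq_of_ord h
      rw [cast_sub_self (by omega)] at h3
      have h4 : x = x0 + 2 := by rw [h3]; push_cast; ring
      rw [h4]
      exact hn' _ h2
  · intro x hxV hxW hx
    have hxn : x ∉ V.1 ∪ W.1 := by rw [Finset.mem_union]; tauto
    have n0 : x ≠ x0 := by
      rintro rfl
      have h4 := ord_add hn3 (x + 2) (n - 3) (by omega)
      rw [cast_sub_self (by omega)] at h4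
      rw [show x + 2 + 1 + -((3 : ℕ) : ZMod n) = x by push_cast; ring] at h4
      omega
    have n1 : x ≠ x0 + 1 := by
      rintro rfl
      have h4 := ord_add hn3 (x0 + 2) (n - 2) (by omega)
      rw [cast_sub_self (by omega)] at h4
      rw [show x0 + 2 + 1 + -((2 : ℕ) : ZMod n) = x0 + 1 by push_cast; ring] at h4
      omega
    have n2 : x ≠ x0 + 2 := by
      rintro rfl
      rw [ord_self hn3] at hx
      omega
    apply nbr hint hxn
    · by_contra h
      rcases key x hxn h with h3 | h3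
      · exact n0 h3
      · exact n1 h3
    · by_contra h
      rcases key (x - 1) h (by rw [sub_add_cancel]; exact hxn) with h3 | h3
      · exact n1 (by linear_combination h3)
      · exact n2 (by linear_combination h3)

theorem crt : S_CRT := by
  intro n k d hk hdk hnd V W hadj hint hb
  classical
  have hn5 : 5 ≤ n := by omega
  have hn : 3 ≤ n := by omega
  have : NeZero n := ⟨by omega⟩
  by_cases hiso : ∀ x, x ∉ V.1 ∪ W.1 → x + 1 ∈ V.1 ∪ W.1
  · exact colorable_interlacing hn hnd hdk V W hadj hint hiso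
  push Not at hiso
  obtain ⟨x0, hx0, hx1⟩ := hiso
  have hd := hadj.2
  have hn' : ∀ x, x ∉ V.1 ∪ W.1 → x ∉ V.1 ∧ x ∉ W.1 := by
    intro x hx
    rwa [Finset.mem_union, not_or] at hx
  by_cases hA : x0 + 2 ∈ V.1 ∪ W.1
  swap
  · exact three hn5 hnd V W hd hint hb x0 hx0 hx1 hA
  by_cases hB : x0 - 1 ∈ V.1 ∪ W.1
  swap
  · refine three hn5 hnd V W hd hint hb (x0 - 1) hB ?_ ?_
    · rw [sub_add_cancel]; exact hx0
    · rw [show x0 - 1 + 2 = x0 + 1 by ring]; exact hx1
  have key : ∀ j, j ∉ V.1 ∪ W.1 → j + 1 ∉ V.1 ∪ W.1 → j = x0 := by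
    intro j hj hj1
    by_contra hcon
    refine hb ⟨x0, hx0, hx1, Or.inl ⟨j, hj, hj1, hcon, ?_, ?_⟩⟩
    · rintro rfl
      apply hj1
      rw [show x0 + 1 + 1 = x0 + 2 by ring]
      exact hA
    · intro h
      apply hj
      rw [show j = x0 - 1 by rw [← h]; ring]
      exact hB
  have hnb : ∀ x, x ∉ V.1 → x ∉ W.1 → x ≠ x0 → x ≠ x0 + 1 →
      (x - 1 ∈ V.1 ∧ x + 1 ∈ W.1) ∨ (x - 1 ∈ W.1 ∧ x + 1 ∈ V.1) := by
    intro x hxV hxW a b
    have hx : x ∉ V.1 ∪ W.1 := by rw [Finset.mem_union]; tauto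
    apply nbr hint hx
    · by_contra h
      exact a (key x hx h)
    · by_contra h
      exact b (by linear_combination key (x - 1) h (by rw [sub_add_cancel]; exact hx))
  by_cases hlong : ∀ s : ℕ, s < 2 * d → x0 + 2 + (s : ZMod n) ∈ V.1 ∪ W.1
  · exact colorable_run2 hn hnd V W hd x0 (hn' _ hx0) (hn' _ hx1) hA hnb hlong
  · push Not at hlong
    obtain ⟨s, hs, hsY⟩ := hlong
    refine colorable_run2' hn hnd V W hd x0 (hn' _ hx0) (hn' _ hx1) hB hnb ?_
    intro t ht
    by_contra h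
    exact hb ⟨x0, hx0, hx1, Or.inr ⟨s, t, hs, ht, hsY, h⟩⟩

end Pool.Agent.P8H38.IE
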